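import Pool.Agent.H76.NP.Targets

set_option autoImplicit false

namespace Pool.Agent.H66.NP

open Pool.Agent.H76.NP Polynomial

theorem pf_FIN : T_FIN := by
  classical
  intro n A hA K hK
  let φ : Fin n ↪ EuclideanSpace ℝ (Fin n) := ⟨fun v => EuclideanSpace.single v (1 : ℝ), by
    intro u v h
    by_contra hne
    have h1 := congrFun (congrArg (fun x : EuclideanSpace ℝ (Fin n) => (x : Fin n → ℝ)) h) u
    simp [Pi.single_apply, hne] at h1⟩
  have hφ : ∀ v, φ v = EuclideanSpace.single v (1 : ℝ) := fun _ => rfl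
  have hfaces : ∀ s : Finset (EuclideanSpace ℝ (Fin n)), s ∈ K.faces ↔
      ∃ σ : Finset (Fin n), σ.Nonempty ∧ Face A σ ∧ s = σ.map φ := by
    intro s
    rw [hK s]
    constructor
    · rintro ⟨σ, h1, h2, h3⟩
      refine ⟨σ, h1, h2, ?_⟩
      apply Finset.coe_injective
      rw [Finset.coe_map, h3]
      rfl
    · rintro ⟨σ, h1, h2, h3⟩
      refine ⟨σ, h1, h2, ?_⟩
      rw [h3, Finset.coe_map]
      rfl
  have hset : K.faces = (fun σ : Finset (Fin n) => σ.map φ) ''
      (((Finset.univ : Finset (Finset (Fin n))).filter (fun σ => σ.Nonempty ∧ Face A σ) : Finset _) : Set _) := by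
    ext s
    rw [hfaces s]
    constructor
    · rintro ⟨σ, h1, h2, h3⟩
      exact ⟨σ, by simp [h1, h2], h3.symm⟩
    · rintro ⟨σ, h1, h3⟩
      have h1' : σ.Nonempty ∧ Face A σ := by simpa using h1
      exact ⟨σ, h1'.1, h1'.2, h3.symm⟩
  refine ⟨?_, ?_, ?_⟩
  · rw [hset]
    exact (Finset.finite_toSet _).image _
  · intro _ s hs hp
    have hrange : ∀ x ∈ s, ∃ v, φ v = x := by
      intro x hx
      obtain ⟨σ, _, _, h3⟩ := (hfaces _).mp (hp x hx x hx)
      have : x ∈ σ.map φ := by rw [← h3]; simp
      obtain ⟨v, _, hv⟩ := Finset.mem_map.mp this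
      exact ⟨v, hv⟩
    rw [hfaces]
    refine ⟨Finset.univ.filter (fun v => φ v ∈ s), ?_, ?_, ?_⟩
    · obtain ⟨x, hx⟩ := hs
      obtain ⟨v, rfl⟩ := hrange x hx
      exact ⟨v, by simp [hx]⟩
    · intro u hu v hv
      have hu' : φ u ∈ s := by simpa using hu
      have hv' : φ v ∈ s := by simpa using hv
      obtain ⟨σ, _, h2, h3⟩ := (hfaces _).mp (hp _ hu' _ hv')
      have e1 : φ u ∈ σ.map φ := by rw [← h3]; simp
      have e2 : φ v ∈ σ.map φ := by rw [← h3]; simp
      rw [Finset.mem_map'] at e1 e2
      exact h2 u e1 v e2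
    · ext x
      constructor
      · intro hx
        obtain ⟨v, rfl⟩ := hrange x hx
        rw [Finset.mem_map']
        simp [hx]
      · intro hx
        obtain ⟨v, hv, rfl⟩ := Finset.mem_map.mp hx
        simpa using hv
  · intro g
    rw [hset]
    have hinj : Function.Injective (fun σ : Finset (Fin n) => σ.map φ) := Finset.map_injective φ
    rw [finsum_mem_image hinj.injOn, finsum_mem_coe_finset]
    have h1 : ∀ σ : Finset (Fin n), (σ.map φ).card = σ.card := fun σ => Finset.card_map φ
    simp only [h1]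
    have h2 : (Finset.univ : Finset (Finset (Fin n))).filter (Face A) =
        insert ∅ ((Finset.univ : Finset (Finset (Fin n))).filter (fun σ => σ.Nonempty ∧ Face A σ)) := by
      ext σ
      simp only [Finset.mem_filter, Finset.mem_univ, true_and, Finset.mem_insert]
      constructor
      · intro h
        rcases Finset.eq_empty_or_nonempty σ with h0 | h0
        · exact Or.inl h0
        · exact Or.inr ⟨h0, h⟩
      · rintro (h | h)
        · rw [h]
          intro x hx
          simp at hx
        · exact h.2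
    rw [h2, Finset.sum_insert (by simp), Finset.card_empty]

end Pool.Agent.H66.NP
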